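import Pool.Agent.Y6.N.Stm

/-! Job NSK-AVG of helper6: averaging for a finite group of modes rotated with a large speed, with an
error which is controlled by the dissipation. -/

set_option autoImplicit false

namespace Pool.Agent.Y141.NSK.AVG

open Set

theorem skew_sum {ι : Type} [Fintype ι] (σ : ι → ι) (τ : ι → ℝ) (y : ι → ℝ)
    (hσ : ∀ j, σ (σ j) = j) (hτ : ∀ j, τ (σ j) = -τ j) : ∑ j, τ j * y j * y (σ j) = 0 := by
  have h1 : ∑ j, τ j * y j * y (σ j) = ∑ j, τ (σ j) * y (σ j) * y (σ (σ j)) :=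
    (Equiv.sum_comp (⟨σ, σ, hσ, hσ⟩ : ι ≃ ι) (fun j => τ j * y j * y (σ j))).symm
  have h2 : ∑ j, τ (σ j) * y (σ j) * y (σ (σ j)) = -∑ j, τ j * y j * y (σ j) := by
    rw [← Finset.sum_neg_distrib]
    apply Finset.sum_congr rfl
    intro j _
    rw [hσ, hτ]; ring
  linarith

theorem t_AVG2 : Pool.Agent.Y6.N.S_AVG2 := by
  intro b Θ n hb hΘ
  set K : ℝ := n * (b * n + 1) with hK
  have hn : (0 : ℝ) ≤ n := Nat.cast_nonneg n
  have hK0 : 0 ≤ K := by positivity
  refine ⟨Real.exp (K * Θ) * (n + 1) + 1, ?_, ?_⟩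
  · have : 0 ≤ Real.exp (K * Θ) * (n + 1) := by positivity
    linarith
  intro ι _ σ τ S θ h η ζ v H H' E Y Y' hcard hσ hτ hτ2 hS hθ hθ60 hh hη hζ hv hH hHb hYY hE hv0
  set δ : ℝ := h / S + η with hδ
  have hSpos : 0 < S := by linarith
  have hhS : 0 ≤ h / S := by positivity
  have hδ0 : 0 ≤ δ := by positivity
  have hcard' : (Fintype.card ι : ℝ) ≤ n := by exact_mod_cast hcard
  have hτ1 : ∀ j, |τ j| ≤ 1 := by
    intro j
    have h1 := hτ2 j
    rw [← sq_abs] at h1
    nlinarith [abs_nonneg (τ j), sq_nonneg (|τ j| - 1)]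
  let y : ι → ℝ → ℝ := fun j t => v j t - τ j * H (σ j) t / S
  have hyd : ∀ j t, t ∈ Icc (0 : ℝ) θ → HasDerivWithinAt (y j)
      (S * τ j * y (σ j) t + (E j t - τ j * H' (σ j) t / S)) (Icc 0 θ) t := by
    intro j t ht
    have h1 := (hv j t ht).sub (((hH (σ j) t ht).const_mul (τ j)).div_const S)
    refine h1.congr_deriv ?_
    change S * τ j * v (σ j) t + H j t + E j t - τ j * H' (σ j) t / S =
      S * τ j * (v (σ j) t - τ (σ j) * H (σ (σ j)) t / S) + (E j t - τ j * H' (σ j) t / S)
    rw [hσ, hτ]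
    have h3 : S * τ j * (-τ j * H j t / S) = -H j t := by
      have h5 : S * τ j * (-τ j * H j t / S) = -(τ j ^ 2 * H j t) := by
        field_simp
      rw [h5, hτ2 j, one_mul]
    have h4 : S * τ j * (v (σ j) t - -τ j * H j t / S) =
        S * τ j * v (σ j) t - S * τ j * (-τ j * H j t / S) := by ring
    rw [h4, h3]; ring
  let W : ℝ → ℝ := fun t => ∑ j, (y j t) ^ 2
  have hW0 : ∀ t, 0 ≤ W t := fun t => Finset.sum_nonneg (fun j _ => sq_nonneg _)
  have hWd : ∀ t ∈ Icc (0 : ℝ) θ, HasDerivWithinAt W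
      (∑ j, 2 * y j t * (S * τ j * y (σ j) t + (E j t - τ j * H' (σ j) t / S))) (Icc 0 θ) t := by
    intro t ht
    have h1 : ∀ j ∈ (Finset.univ : Finset ι), HasDerivWithinAt (fun t => (y j t) ^ 2)
        (2 * y j t * (S * τ j * y (σ j) t + (E j t - τ j * H' (σ j) t / S))) (Icc 0 θ) t := by
      intro j _
      have := (hyd j t ht).pow 2
      refine this.congr_deriv ?_
      simp
    exact HasDerivWithinAt.fun_sum h1
  have hvy : ∀ j t, t ∈ Icc (0 : ℝ) θ → |v j t| ≤ |y j t| + h / S := by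
    intro j t ht
    have h1 : v j t = y j t + τ j * H (σ j) t / S := by
      change v j t = (v j t - τ j * H (σ j) t / S) + τ j * H (σ j) t / S
      ring
    have h2 : |τ j * H (σ j) t / S| ≤ h / S := by
      rw [abs_div, abs_of_pos hSpos, abs_mul]
      apply div_le_div_of_nonneg_right _ hSpos.le
      calc |τ j| * |H (σ j) t| ≤ 1 * h :=
            mul_le_mul (hτ1 j) (hHb (σ j) t ht).1 (abs_nonneg _) zero_le_one
        _ = h := one_mul h
    calc |v j t| = |y j t + τ j * H (σ j) t / S| := by rw [← h1]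
      _ ≤ |y j t| + |τ j * H (σ j) t / S| := abs_add_le _ _
      _ ≤ _ := by linarith
  have hWb : ∀ t ∈ Icc (0 : ℝ) θ,
      ∑ j, 2 * y j t * (S * τ j * y (σ j) t + (E j t - τ j * H' (σ j) t / S)) ≤
        2 * (∑ j, |y j t|) * (b * (∑ j, |y j t|) + (b * n + 1) * δ + ζ * -Y' t) := by
    intro t ht
    set s : ℝ := ∑ j, |y j t| with hs
    have hs0 : 0 ≤ s := Finset.sum_nonneg (fun j _ => abs_nonneg _)
    have hsv : ∑ i, |v i t| ≤ s + n * (h / S) := by
      calc ∑ i, |v i t| ≤ ∑ i, (|y i t| + h / S) := Finset.sum_le_sum (fun i _ => hvy i t ht)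
        _ = s + (Fintype.card ι : ℝ) * (h / S) := by
            rw [Finset.sum_add_distrib, Finset.sum_const, nsmul_eq_mul, Finset.card_univ]
        _ ≤ _ := by
            have := mul_le_mul_of_nonneg_right hcard' hhS
            linarith
    have hrem : ∀ j, |E j t - τ j * H' (σ j) t / S| ≤ b * s + (b * n + 1) * δ + ζ * -Y' t := by
      intro j
      have h1 := hE j t ht
      have h2 : |τ j * H' (σ j) t / S| ≤ h / S := by
        rw [abs_div, abs_of_pos hSpos, abs_mul]
        apply div_le_div_of_nonneg_right _ hSpos.le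
        calc |τ j| * |H' (σ j) t| ≤ 1 * h :=
              mul_le_mul (hτ1 j) (hHb (σ j) t ht).2 (abs_nonneg _) zero_le_one
          _ = h := one_mul h
      have h3 := abs_sub (E j t) (τ j * H' (σ j) t / S)
      have h4 : b * ∑ i, |v i t| ≤ b * (s + n * (h / S)) := mul_le_mul_of_nonneg_left hsv hb
      have h5 : 0 ≤ b * n * η := by positivity
      have h6 : (b * n + 1) * δ = b * n * (h / S) + h / S + b * n * η + η := by rw [hδ]; ring
      rw [h6]
      linarith
    have hsplit : ∑ j, 2 * y j t * (S * τ j * y (σ j) t + (E j t - τ j * H' (σ j) t / S)) =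
        2 * S * (∑ j, τ j * y j t * y (σ j) t) +
          ∑ j, 2 * y j t * (E j t - τ j * H' (σ j) t / S) := by
      rw [Finset.mul_sum, ← Finset.sum_add_distrib]
      apply Finset.sum_congr rfl
      intro j _; ring
    rw [hsplit, skew_sum σ τ (fun j => y j t) hσ hτ, mul_zero, zero_add]
    have h7 : ∑ j, 2 * y j t * (E j t - τ j * H' (σ j) t / S) ≤
        ∑ j, 2 * |y j t| * (b * s + (b * n + 1) * δ + ζ * -Y' t) := by
      apply Finset.sum_le_sum
      intro j _
      calc 2 * y j t * (E j t - τ j * H' (σ j) t / S)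
          ≤ |2 * y j t * (E j t - τ j * H' (σ j) t / S)| := le_abs_self _
        _ = 2 * |y j t| * |E j t - τ j * H' (σ j) t / S| := by
            rw [abs_mul, abs_mul, abs_two]
        _ ≤ _ := mul_le_mul_of_nonneg_left (hrem j) (by positivity)
    have h8 : ∑ j, 2 * |y j t| * (b * s + (b * n + 1) * δ + ζ * -Y' t) =
        2 * s * (b * s + (b * n + 1) * δ + ζ * -Y' t) := by
      rw [← Finset.sum_mul, ← Finset.mul_sum]
    rw [h8] at h7
    exact h7
  have hW00 : W 0 ≤ (n * δ) ^ 2 := by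
    have h1 : ∀ j, (y j 0) ^ 2 ≤ δ ^ 2 := by
      intro j
      have h0 : (0 : ℝ) ∈ Icc (0 : ℝ) θ := ⟨le_refl _, hθ⟩
      have h2 : y j 0 = -(τ j * H (σ j) 0 / S) := by
        change v j 0 - τ j * H (σ j) 0 / S = _
        rw [hv0]; ring
      have h3 : |y j 0| ≤ δ := by
        rw [h2, abs_neg, abs_div, abs_of_pos hSpos, abs_mul]
        have h4 : |τ j| * |H (σ j) 0| / S ≤ h / S := by
          apply div_le_div_of_nonneg_right _ hSpos.le
          calc |τ j| * |H (σ j) 0| ≤ 1 * h :=
                mul_le_mul (hτ1 j) (hHb (σ j) 0 h0).1 (abs_nonneg _) zero_le_one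
            _ = h := one_mul h
        linarith
      rw [← sq_abs]
      exact pow_le_pow_left₀ (abs_nonneg _) h3 2
    have h2 : (n : ℝ) ≤ (n : ℝ) ^ 2 := by
      have h3 : n ≤ n ^ 2 := Nat.le_self_pow (by norm_num) n
      exact_mod_cast h3
    calc W 0 ≤ ∑ _j : ι, δ ^ 2 := Finset.sum_le_sum (fun j _ => h1 j)
      _ = (Fintype.card ι : ℝ) * δ ^ 2 := by
          rw [Finset.sum_const, nsmul_eq_mul, Finset.card_univ]
      _ ≤ n * δ ^ 2 := mul_le_mul_of_nonneg_right hcard' (sq_nonneg _)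
      _ ≤ n ^ 2 * δ ^ 2 := mul_le_mul_of_nonneg_right h2 (sq_nonneg _)
      _ = _ := by ring
  intro j t ht
  have h0 : (0 : ℝ) ∈ Icc (0 : ℝ) θ := ⟨le_refl _, hθ⟩
  -- the estimate for every `ε > 0`
  have main : ∀ ε : ℝ, 0 < ε → |y j t| ≤ Real.exp (K * Θ) * ((n + 1) * δ + n * ζ + ε) := by
    intro ε hε
    let r : ℝ → ℝ := fun t => Real.sqrt (W t + ε ^ 2)
    have hWε : ∀ t, 0 < W t + ε ^ 2 := fun t => by
      have h1 := hW0 t
      positivity
    have hr0 : ∀ t, 0 < r t := fun t => Real.sqrt_pos.2 (hWε t)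
    have hyr : ∀ i t, |y i t| ≤ r t := by
      intro i t
      apply Real.le_sqrt_of_sq_le
      rw [sq_abs]
      have h5 : (y i t) ^ 2 ≤ W t :=
        Finset.single_le_sum (f := fun i => (y i t) ^ 2) (fun i _ => sq_nonneg _)
          (Finset.mem_univ i)
      nlinarith [sq_nonneg ε]
    have hsr : ∀ t, ∑ i, |y i t| ≤ n * r t := by
      intro t
      calc ∑ i, |y i t| ≤ ∑ _i : ι, r t := Finset.sum_le_sum (fun i _ => hyr i t)
        _ = (Fintype.card ι : ℝ) * r t := by
            rw [Finset.sum_const, nsmul_eq_mul, Finset.card_univ]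
        _ ≤ _ := mul_le_mul_of_nonneg_right hcard' (hr0 t).le
    have hrd : ∀ t ∈ Icc (0 : ℝ) θ, HasDerivWithinAt r
        ((∑ j, 2 * y j t * (S * τ j * y (σ j) t + (E j t - τ j * H' (σ j) t / S))) /
          (2 * r t)) (Icc 0 θ) t := by
      intro t ht
      exact ((hWd t ht).add_const (ε ^ 2)).sqrt (hWε t).ne'
    have hrb : ∀ t ∈ Icc (0 : ℝ) θ,
        (∑ j, 2 * y j t * (S * τ j * y (σ j) t + (E j t - τ j * H' (σ j) t / S))) /
          (2 * r t) ≤ K * (r t + δ) + n * ζ * -Y' t := by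
      intro t ht
      have hr := hr0 t
      rw [div_le_iff₀ (by positivity)]
      refine (hWb t ht).trans ?_
      have hY'0 : 0 ≤ -Y' t := by
        have := (hYY t ht).2.1
        linarith
      have hs := hsr t
      set s : ℝ := ∑ j, |y j t| with hsdef
      have hs0 : 0 ≤ s := Finset.sum_nonneg (fun j _ => abs_nonneg _)
      have h1 : b * s ≤ b * (n * r t) := mul_le_mul_of_nonneg_left hs hb
      have h2 : b * s + (b * n + 1) * δ + ζ * -Y' t ≤
          (b * n + 1) * (r t + δ) + ζ * -Y' t := by nlinarith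
      have h3 : 0 ≤ (b * n + 1) * (r t + δ) + ζ * -Y' t := by positivity
      calc 2 * s * (b * s + (b * n + 1) * δ + ζ * -Y' t)
          ≤ 2 * s * ((b * n + 1) * (r t + δ) + ζ * -Y' t) :=
            mul_le_mul_of_nonneg_left h2 (by positivity)
        _ ≤ 2 * (n * r t) * ((b * n + 1) * (r t + δ) + ζ * -Y' t) :=
            mul_le_mul_of_nonneg_right (by linarith) h3
        _ = _ := by rw [hK]; ring
    -- Gronwall
    let g : ℝ → ℝ := fun t => Real.exp (-K * t) * (r t + n * ζ * Y t + δ)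
    have hgd : ∀ t ∈ Icc (0 : ℝ) θ, HasDerivWithinAt g
        (Real.exp (-K * t) * (-K) * (r t + n * ζ * Y t + δ) + Real.exp (-K * t) *
          ((∑ j, 2 * y j t * (S * τ j * y (σ j) t + (E j t - τ j * H' (σ j) t / S))) /
          (2 * r t) + n * ζ * Y' t)) (Icc 0 θ) t := by
      intro t ht
      have h1 : HasDerivWithinAt (fun t : ℝ => Real.exp (-K * t)) (Real.exp (-K * t) * (-K))
          (Icc 0 θ) t := by
        have h2 : HasDerivWithinAt (fun t : ℝ => -K * t) (-K) (Icc 0 θ) t := by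
          simpa using (hasDerivWithinAt_id t (Icc 0 θ)).const_mul (-K)
        exact h2.exp
      exact h1.mul (((hrd t ht).add ((hYY t ht).1.const_mul (n * ζ))).add_const δ)
    have hganti : AntitoneOn g (Icc 0 θ) := by
      apply antitoneOn_of_deriv_nonpos (convex_Icc 0 θ)
      · exact fun t ht => (hgd t ht).continuousWithinAt
      · intro t ht
        rw [interior_Icc] at ht ⊢
        exact ((hgd t (Ioo_subset_Icc_self ht)).hasDerivAt
          (Icc_mem_nhds ht.1 ht.2)).differentiableAt.differentiableWithinAt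
      · intro t ht
        rw [interior_Icc] at ht
        have ht' := Ioo_subset_Icc_self ht
        rw [((hgd t ht').hasDerivAt (Icc_mem_nhds ht.1 ht.2)).deriv]
        have h1 := hrb t ht'
        have h2 : 0 < Real.exp (-K * t) := Real.exp_pos _
        have h3 : 0 ≤ K * (n * ζ * Y t) := by
          have := (hYY t ht').2.2.1
          positivity
        have h4 : Real.exp (-K * t) * (-K) * (r t + n * ζ * Y t + δ) + Real.exp (-K * t) *
          ((∑ j, 2 * y j t * (S * τ j * y (σ j) t + (E j t - τ j * H' (σ j) t / S))) /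
          (2 * r t) + n * ζ * Y' t) = Real.exp (-K * t) *
          ((∑ j, 2 * y j t * (S * τ j * y (σ j) t + (E j t - τ j * H' (σ j) t / S))) /
          (2 * r t) + n * ζ * Y' t - K * (r t + n * ζ * Y t + δ)) := by ring
        rw [h4]
        apply mul_nonpos_of_nonneg_of_nonpos h2.le
        nlinarith
    have h1 := hganti h0 ht ht.1
    have hr00 : r 0 ≤ n * δ + ε := by
      apply Real.sqrt_le_iff.2
      constructor
      · positivity
      · have h2 : 0 ≤ n * δ * ε := by positivity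
        nlinarith
    have h2 : Real.exp (-K * t) * (r t + n * ζ * Y t + δ) ≤ (n + 1) * δ + n * ζ + ε := by
      have h3 : g 0 = r 0 + n * ζ * Y 0 + δ := by
        change Real.exp (-K * 0) * (r 0 + n * ζ * Y 0 + δ) = _
        rw [mul_zero, Real.exp_zero, one_mul]
      have h4 : n * ζ * Y 0 ≤ n * ζ * 1 :=
        mul_le_mul_of_nonneg_left (hYY 0 h0).2.2.2 (by positivity)
      calc Real.exp (-K * t) * (r t + n * ζ * Y t + δ) = g t := rfl
        _ ≤ g 0 := h1
        _ = r 0 + n * ζ * Y 0 + δ := h3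
        _ ≤ _ := by linarith
    have hYt := (hYY t ht).2.2.1
    calc |y j t| ≤ r t := hyr j t
      _ ≤ r t + n * ζ * Y t + δ := by
          have : 0 ≤ n * ζ * Y t := by positivity
          linarith
      _ = Real.exp (K * t) * (Real.exp (-K * t) * (r t + n * ζ * Y t + δ)) := by
          rw [← mul_assoc, ← Real.exp_add]
          rw [show K * t + -K * t = 0 by ring, Real.exp_zero, one_mul]
      _ ≤ Real.exp (K * Θ) * ((n + 1) * δ + n * ζ + ε) := by
          apply mul_le_mul _ h2 _ (Real.exp_pos _).le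
          · apply Real.exp_le_exp.2
            have h5 := ht.2
            apply mul_le_mul_of_nonneg_left (by linarith) hK0
          · have h6 := (hr0 t).le
            positivity
  have hfin : |y j t| ≤ Real.exp (K * Θ) * ((n + 1) * δ + n * ζ) := by
    apply le_of_forall_pos_le_add
    intro ε hε
    have hE0 : 0 < Real.exp (K * Θ) := Real.exp_pos _
    have h1 := main (ε / Real.exp (K * Θ)) (by positivity)
    have h2 : Real.exp (K * Θ) * ((n + 1) * δ + n * ζ + ε / Real.exp (K * Θ)) =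
        Real.exp (K * Θ) * ((n + 1) * δ + n * ζ) + ε := by
      rw [mul_add, mul_div_cancel₀ _ hE0.ne']
    rw [h2] at h1
    exact h1
  have h7 := hvy j t ht
  have h8 : h / S ≤ δ := by rw [hδ]; linarith
  have h9 : 0 ≤ Real.exp (K * Θ) * ζ := by positivity
  calc |v j t| ≤ |y j t| + h / S := h7
    _ ≤ Real.exp (K * Θ) * ((n + 1) * δ + n * ζ) + δ := by linarith
    _ ≤ (Real.exp (K * Θ) * (n + 1) + 1) * (δ + ζ) := by nlinarith
    _ = _ := by rw [hδ]

end Pool.Agent.Y141.NSK.AVG
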